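import Pool.Agent.Helper71.UN.StD

/-!
# Project UN (MP_d629b1_an), module VXA: the vertex model of the hexagon network
-/

set_option autoImplicit false

open Set Filter Topology Matrix
open scoped ContDiff ComplexConjugate

noncomputable section

namespace Pool.Agent.Helper47.UN

open Pool.Agent.Helper71.UN

private theorem sw6 : ∀ j : Fin 7, sw (st6 j) (ra6 j) (rb6 j) = st6 (j + 1) := by
  unfold sw
  decide

private theorem sws {n : ℕ} (u : Fin n → Fin 4) (a b : Fin n) : sw (sw u a b) a b = u := by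
  funext x
  unfold sw
  rw [Equiv.swap_apply_self]

private theorem agree : ∀ (j : Fin 7) (c : Fin 6), c ≠ ra6 j → c ≠ rb6 j →
    st6 (j + 1) c = st6 j c := by
  decide

private theorem adm6 (j : Fin 7) : Adm al6 (st6 j) (ra6 j) (rb6 j) where
  ne := by
    revert j
    decide
  self := by
    revert j
    decide
  ab := by
    revert j
    decide
  ba := by
    revert j
    decide

private theorem e66 (j : Fin 7) : e6 j * e6 j = 1 := by
  fin_cases j <;> simp [e6]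

private theorem cov : ∀ j : Fin 7, (∃ i : Fin 4, j = Fin.ofNat 7 i) ∨
    ∃ i : Fin 3, j = Fin.ofNat 7 (6 - (i : ℕ)) := by
  decide

private theorem succA : ∀ i : Fin 4, (Fin.ofNat 7 (i : ℕ) : Fin 7) + 1 = Fin.ofNat 7 ((i : ℕ) + 1) := by
  decide

private theorem succB : ∀ i : Fin 3,
    (Fin.ofNat 7 (6 - (i : ℕ)) : Fin 7) + 1 = Fin.ofNat 7 (7 - (i : ℕ)) := by
  decide

private theorem predB : ∀ i : Fin 3,
    (Fin.ofNat 7 (7 - ((i : ℕ) + 1)) : Fin 7) = Fin.ofNat 7 (6 - (i : ℕ)) := by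
  decide

/-- VXA. -/
theorem hVXA (hSTP : StSTP) (_hFRO : StFRO) (hROT : StROT) (hEPP : StEPP) (hDER : StDER)
    (hVM : StVM) (hDIR : StDIR) : Pool.Agent.Helper71.UN.StVXA := by
  intro Γ η k l v₀ a a' τ h s θ hη hC
  obtain ⟨hdA, hdB⟩ := hDIR Γ η k l v₀ a a' τ h s θ hη hC
  have hsg : ∀ t, sg (-t) = 1 - sg t := hSTP.2.2.2.2.2.2.2.2.2.1
  have hgA : ∀ i, i < 4 → IsP al6 (pu (sA6 i)) (pu (sA6 (i + 1))) (g6 (Fin.ofNat 7 i)) := by
    intro i hi
    have h1 := (hEPP 6 al6 (st6 (Fin.ofNat 7 i)) (ra6 (Fin.ofNat 7 i)) (rb6 (Fin.ofNat 7 i))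
      (e6 (Fin.ofNat 7 i)) (adm6 _) (e66 _)).1
    rw [sw6] at h1
    have h2 := succA ⟨i, hi⟩
    simp only at h2
    rw [h2] at h1
    exact h1
  have hgB : ∀ i, i < 3 → IsP al6 (pu (sB6 i)) (pu (sB6 (i + 1)))
      (rv (g6 (Fin.ofNat 7 (6 - i)))) := by
    intro i hi
    obtain ⟨j, hj⟩ : ∃ j : Fin 7, j = Fin.ofNat 7 (6 - i) := ⟨_, rfl⟩
    obtain ⟨-, h2, -, h4, -⟩ := hEPP 6 al6 (st6 j) (ra6 j) (rb6 j) (e6 j) (adm6 _) (e66 _)
    have h5 := (hEPP 6 al6 (sw (st6 j) (ra6 j) (rb6 j)) (ra6 j) (rb6 j) (-e6 j) h4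
      (by rw [neg_mul_neg, e66])).1
    rw [← h2, sws, sw6] at h5
    have h6 := succB ⟨i, hi⟩
    have h7 := predB ⟨i, hi⟩
    simp only at h6 h7
    rw [← hj] at h6 h7 ⊢
    unfold sB6
    rw [h7, ← h6]
    exact h5
  obtain ⟨M, R₀, hR₀, hMs, hMo, hM⟩ := hVM 6 al6 v₀ (dA6 v₀ a a' τ h) (dB6 v₀ a a' τ h) 4 3
    (fun i => g6 (Fin.ofNat 7 i)) (fun i => rv (g6 (Fin.ofNat 7 (6 - i)))) (fun i => pu (sA6 i))
    (fun i => pu (sB6 i)) hC.nz (by norm_num) (by norm_num) hdA hdB hgA hgB rfl rfl hDER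
  refine ⟨M, R₀, hR₀, hMs, hMo, fun z hz => ?_⟩
  obtain ⟨hA, hB, hP⟩ := hM z hz
  -- the tubes
  have key : ∀ j : Fin 7, 0 < tt (d6 v₀ a a' τ h j) z → |hh (d6 v₀ a a' τ h j) z| ≤ 1 →
      M z = fr (rt (ra6 j) (rb6 j) (e6 j)
        (Real.pi / 2 * prof (hh (d6 v₀ a a' τ h j) z))) (st6 j) ∧
      (stz6 v₀ a a' τ h z = st6 j ∨ stz6 v₀ a a' τ h z = st6 (j + 1)) := by
    intro j ht hh'
    rcases cov j with ⟨i, rfl⟩ | ⟨i, rfl⟩
    · obtain ⟨h1, h2, h3⟩ := hA i i.2 ht hh'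
      refine ⟨h1, ?_⟩
      unfold stz6
      rw [if_pos h2]
      rcases h3 with h3 | h3
      · rw [h3]
        exact Or.inl rfl
      · rw [h3, succA]
        exact Or.inr rfl
    · obtain ⟨h1, h2, h3⟩ := hB i i.2 ht hh'
      refine ⟨?_, ?_⟩
      · rw [h1]
        simp only [rv]
        rw [hsg, sub_sub_cancel]
        rfl
      · unfold stz6
        rw [if_neg (by linarith)]
        rcases h3 with h3 | h3
        · rw [h3, succB]
          exact Or.inr rfl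
        · rw [h3]
          unfold sB6
          rw [predB]
          exact Or.inl rfl
  refine ⟨fun j ht hh' => (key j ht hh').1, ?_⟩
  intro c hc i b
  by_cases hall : ∀ j : Fin 7,
      ¬ (0 < tt (d6 v₀ a a' τ h j) z ∧ |hh (d6 v₀ a a' τ h j) z| ≤ 1)
  · have h1 := hP (fun i _ => hall _) (fun i _ => hall _)
    have h2 : M z = pu (stz6 v₀ a a' τ h z) := by
      rw [h1]
      unfold stz6
      split_ifs <;> rfl
    rw [h2]
    unfold pu
    rw [Matrix.diagonal_apply]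
    by_cases hb : c = b
    · subst hb
      by_cases hi : stz6 v₀ a a' τ h z c = i
      · simp [hi]
      · simp [hi, Ne.symm hi]
    · rw [if_neg hb, if_neg]
      rintro ⟨-, h3⟩
      exact hb h3.symm
  · push Not at hall
    obtain ⟨j, ht, hh'⟩ := hall
    have hca : c ≠ ra6 j := fun hca => hc j (Or.inl hca.symm) ⟨ht, hh'⟩
    have hcb : c ≠ rb6 j := fun hcb => hc j (Or.inr hcb.symm) ⟨ht, hh'⟩
    obtain ⟨h1, h2⟩ := key j ht hh'
    have h3 : stz6 v₀ a a' τ h z c = st6 j c := by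
      rcases h2 with h2 | h2
      · rw [h2]
      · rw [h2, agree j c hca hcb]
    obtain ⟨-, -, -, -, -, -, h7⟩ := hROT 6 (st6 j) (ra6 j) (rb6 j) (e6 j) (adm6 j).ne (e66 j)
    obtain ⟨-, -, -, -, h8⟩ := h7 (Real.pi / 2 * prof (hh (d6 v₀ a a' τ h j) z)) i
    rw [h1, (h8 c b hca hcb).1, h3]
    by_cases hb : c = b
    · subst hb
      by_cases hi : st6 j c = i
      · simp [hi]
      · simp [hi, Ne.symm hi]
    · rw [if_neg, if_neg]
      · rintro ⟨-, h3⟩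
        exact hb h3.symm
      · rintro ⟨h3, -⟩
        exact hb h3

end Pool.Agent.Helper47.UN
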